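import Pool.Agent.H889R3.RQ.Stmts

set_option autoImplicit false

namespace Pool.Agent.H889R3.RQ

theorem poly_bound (b : Polynomial ℕ) : ∃ a : ℕ, ∀ n : ℕ, b.eval n ≤ (n + 2) ^ a := by
  induction b using Polynomial.induction_on' with
  | add p q hp hq =>
    obtain ⟨a1, h1⟩ := hp
    obtain ⟨a2, h2⟩ := hq
    refine ⟨a1 + a2 + 1, fun n => ?_⟩
    rw [Polynomial.eval_add]
    have e1 : (n + 2) ^ a1 ≤ (n + 2) ^ (a1 + a2) := Nat.pow_le_pow_right (by omega) (by omega)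
    have e2 : (n + 2) ^ a2 ≤ (n + 2) ^ (a1 + a2) := Nat.pow_le_pow_right (by omega) (by omega)
    have e3 : (n + 2) ^ (a1 + a2 + 1) = (n + 2) ^ (a1 + a2) * (n + 2) := pow_succ _ _
    have := h1 n
    have := h2 n
    nlinarith [Nat.zero_le ((n + 2) ^ (a1 + a2) * n)]
  | monomial m c =>
    refine ⟨c + m, fun n => ?_⟩
    rw [Polynomial.eval_monomial, pow_add]
    refine Nat.mul_le_mul ?_ (Nat.pow_le_pow_left (by omega) m)
    exact (Nat.lt_two_pow_self).le.trans (Nat.pow_le_pow_left (by omega) c)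

theorem taskC4 : St_C4 := by
  intro b k C hC
  obtain ⟨a, ha⟩ := poly_bound b
  refine ⟨((a : ℝ) + k + 6) * (C * (a + 3)), fun n q hq => ?_⟩
  set N : ℝ := (n : ℝ) + 2 with hN
  have hn0 : (0 : ℝ) ≤ n := Nat.cast_nonneg n
  have hN2 : 2 ≤ N := by rw [hN]; linarith
  have hN1 : 1 ≤ N := by linarith
  have hN0 : 0 < N := by linarith
  have hq0 : (0 : ℝ) ≤ q := Nat.cast_nonneg q
  have hqN : (q : ℝ) ≤ N ^ a := by
    have h1 : q ≤ (n + 2) ^ a := hq.trans (ha n)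
    have h2 : (q : ℝ) ≤ (((n + 2) ^ a : ℕ) : ℝ) := by exact_mod_cast h1
    rw [hN]
    push_cast at h2
    exact h2
  have hNa : 1 ≤ N ^ a := one_le_pow₀ hN1
  have h3 : 2 * (q : ℝ) + 1 ≤ N ^ (a + 2) := by
    rw [pow_add]
    nlinarith [sq_nonneg (N - 2)]
  have h4 : 2 * (2 * (q : ℝ) + 1) ≤ N ^ (a + 3) := by
    rw [show a + 3 = (a + 2) + 1 from rfl, pow_succ]
    nlinarith [pow_pos hN0 (a + 2)]
  have h5 : 4 * (2 * (q : ℝ) + 1) / (1 / N ^ (k + 2)) ≤ N ^ (a + k + 6) := by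
    rw [div_div_eq_mul_div, div_one]
    calc 4 * (2 * (q : ℝ) + 1) * N ^ (k + 2) ≤ (N ^ 2 * N ^ (a + 2)) * N ^ (k + 2) := by
          refine mul_le_mul_of_nonneg_right ?_ (by positivity)
          refine mul_le_mul ?_ h3 (by positivity) (by positivity)
          nlinarith
      _ = N ^ (a + k + 6) := by rw [← pow_add, ← pow_add]; congr 1; omega
  have hB1 : 1 ≤ 4 * (2 * (q : ℝ) + 1) / (1 / N ^ (k + 2)) := by
    rw [div_div_eq_mul_div, div_one]
    have : (1 : ℝ) ≤ N ^ (k + 2) := one_le_pow₀ hN1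
    nlinarith
  have hB0 : 0 < 4 * (2 * (q : ℝ) + 1) / (1 / N ^ (k + 2)) := by linarith
  have hlN : 0 < Real.log N := Real.log_pos (by linarith)
  have hl1 : Real.log (4 * (2 * (q : ℝ) + 1) / (1 / N ^ (k + 2))) ≤
      ((a : ℝ) + k + 6) * Real.log N := by
    have := Real.log_le_log hB0 h5
    rw [Real.log_pow] at this
    push_cast at this
    exact this
  have hl2 : Real.log (2 * (2 * (q : ℝ) + 1)) ≤ ((a : ℝ) + 3) * Real.log N := by
    have := Real.log_le_log (by positivity) h4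
    rw [Real.log_pow] at this
    push_cast at this
    exact this
  have hl3 : 0 ≤ Real.log (2 * (2 * (q : ℝ) + 1)) := Real.log_nonneg (by linarith)
  rw [Real.rpow_def_of_pos hB0, Real.exp_le_exp]
  have hl4 : 0 ≤ Real.log (4 * (2 * (q : ℝ) + 1) / (1 / N ^ (k + 2))) := Real.log_nonneg hB1
  calc Real.log (4 * (2 * (q : ℝ) + 1) / (1 / N ^ (k + 2))) *
        (C * Real.log (2 * (2 * (q : ℝ) + 1)))
      ≤ (((a : ℝ) + k + 6) * Real.log N) * (C * (((a : ℝ) + 3) * Real.log N)) := by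
        refine mul_le_mul hl1 (mul_le_mul_of_nonneg_left hl2 hC.le) (by positivity) (by positivity)
    _ = ((a : ℝ) + k + 6) * (C * (a + 3)) * Real.log N ^ 2 := by ring

end Pool.Agent.H889R3.RQ
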