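import Pool.Agent.H620R2.GaugeQ.Defs
import Pool.Agent.H628R3.RO.Defs

/-!
# Decision trees asking an oracle
-/

set_option autoImplicit false

namespace Pool.Agent.H889R3.RQ

/-- A deterministic query algorithm (decision tree): it stops with an answer, or it asks a question
`q` and continues with the first tree if the answer is `false` and with the second tree if it is
`true`. -/
inductive DTree (α : Type) : Type
  | leaf (b : Bool) : DTree α
  | ask (q : α) (t₀ t₁ : DTree α) : DTree α

/-- The answer of the decision tree when the questions are answered by `A`. -/
def DTree.eval {α : Type} (A : α → Bool) : DTree α → Bool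
  | .leaf b => b
  | .ask q t₀ t₁ => if A q then t₁.eval A else t₀.eval A

/-- The depth of the decision tree: the largest number of questions asked on a path. -/
def DTree.depth {α : Type} : DTree α → ℕ
  | .leaf _ => 0
  | .ask _ t₀ t₁ => max t₀.depth t₁.depth + 1

end Pool.Agent.H889R3.RQ
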