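import Pool.Agent.H889R3.RQ.Stmts
import Pool.Agent.H628R3.RO.C1

set_option autoImplicit false

namespace Pool.Agent.H889R3.RQ

open Finset MeasureTheory Filter Pool.Agent.NPC
open Pool.Agent.H620R2.Gauge (accProb)
open Pool.Agent.H516R2.EQP (queries)
open Pool.Agent.H628R3.RO (randomOracle prob Oracle)
open Pool.Agent.H628R3.RO.C1 (borel_cantelli)

instance : IsProbabilityMeasure randomOracle := by
  unfold randomOracle; infer_instance

theorem sum_inv_sq (n : ℕ) : ∑ i ∈ Finset.range n, 1 / ((i : ℝ) + 2) ^ 2 ≤ 1 := by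
  have h : ∀ n : ℕ, ∑ i ∈ Finset.range n, 1 / ((i : ℝ) + 2) ^ 2 ≤ 1 - 1 / ((n : ℝ) + 1) := by
    intro n
    induction n with
    | zero => simp
    | succ n ih =>
      rw [Finset.sum_range_succ]
      have h1 : 1 / ((n : ℝ) + 2) ^ 2 ≤ 1 / ((n : ℝ) + 1) - 1 / ((n : ℝ) + 2) := by
        rw [div_sub_div _ _ (by positivity) (by positivity), div_le_div_iff₀ (by positivity)
          (by positivity)]
        ring_nf
        nlinarith [Nat.cast_nonneg (α := ℝ) n]
      push_cast
      have h2 : ((n : ℝ) + 1 + 1) = (n : ℝ) + 2 := by ring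
      rw [h2]
      linarith
  have := h n
  have h3 : 0 ≤ 1 / ((n : ℝ) + 1) := by positivity
  linarith

open Classical in
/-- Borel-Cantelli with weights. -/
theorem weights (k : ℕ) (w : List Bool → ℝ) (hw0 : ∀ x, 0 ≤ w x)
    (hw : ∀ n, ∑ x : Fin n → Bool, w (List.ofFn x) ≤ 1)
    (B : List Bool → Set (List Bool → Bool)) (hB : ∀ x, MeasurableSet (B x))
    (hp : ∀ x, randomOracle.real (B x) ≤ 1 / ((x.length : ℝ) + 2) ^ (k + 2)) :
    ∀ᵐ A ∂randomOracle, ∀ᶠ n : ℕ in Filter.atTop,
      (∑ x : Fin n → Bool, if A ∈ B (List.ofFn x) then w (List.ofFn x) else 0) * n ^ k ≤ 1 := by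
  set F : ℕ → (List Bool → Bool) → ℝ := fun n A =>
    ∑ x : Fin n → Bool, (B (List.ofFn x)).indicator (fun _ => w (List.ofFn x)) A with hF
  have hint : ∀ n, Integrable (F n) randomOracle := by
    intro n
    refine integrable_finsetSum _ fun x _ => ?_
    exact (integrable_const _).indicator (hB _)
  have hF0 : ∀ n A, 0 ≤ F n A := by
    intro n A
    refine Finset.sum_nonneg fun x _ => ?_
    exact Set.indicator_nonneg (fun _ _ => hw0 _) _
  have hE : ∀ n, ∫ A, F n A ∂randomOracle ≤ 1 / ((n : ℝ) + 2) ^ (k + 2) := by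
    intro n
    rw [hF]
    simp only
    rw [integral_finsetSum _ fun x _ => (integrable_const _).indicator (hB _)]
    have h1 : ∀ x : Fin n → Bool,
        ∫ A, (B (List.ofFn x)).indicator (fun _ => w (List.ofFn x)) A ∂randomOracle ≤
          w (List.ofFn x) * (1 / ((n : ℝ) + 2) ^ (k + 2)) := by
      intro x
      rw [integral_indicator_const _ (hB _), smul_eq_mul, mul_comm]
      refine mul_le_mul_of_nonneg_left ?_ (hw0 _)
      have := hp (List.ofFn x)
      rwa [List.length_ofFn] at this
    calc _ ≤ ∑ x : Fin n → Bool, w (List.ofFn x) * (1 / ((n : ℝ) + 2) ^ (k + 2)) :=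
          Finset.sum_le_sum fun x _ => h1 x
      _ = (∑ x : Fin n → Bool, w (List.ofFn x)) * (1 / ((n : ℝ) + 2) ^ (k + 2)) := by
          rw [Finset.sum_mul]
      _ ≤ 1 * (1 / ((n : ℝ) + 2) ^ (k + 2)) :=
          mul_le_mul_of_nonneg_right (hw n) (by positivity)
      _ = _ := one_mul _
  set E : ℕ → Set (List Bool → Bool) := fun n => {A | 1 < F n A * n ^ k} with hEd
  have hPE : ∀ n, prob (E n) ≤ 1 / ((n : ℝ) + 2) ^ 2 := by
    intro n
    unfold prob
    by_cases hn : (n : ℝ) ^ k = 0
    · have : E n = ∅ := by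
        ext A
        simp only [hEd, hn, mul_zero, Set.mem_ofPred_eq, Set.mem_empty_iff_false, iff_false]
        norm_num
      rw [this]
      simp only [measureReal_empty]
      positivity
    · have hn0 : 0 < (n : ℝ) ^ k := lt_of_le_of_ne (by positivity) (Ne.symm hn)
      have h1 := mul_meas_ge_le_integral_of_nonneg (μ := randomOracle)
        (ae_of_all _ (hF0 n)) (hint n) (1 / (n : ℝ) ^ k)
      have h2 : E n ⊆ {A | 1 / (n : ℝ) ^ k ≤ F n A} := by
        intro A hA
        have hA' : 1 < F n A * n ^ k := hA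
        show 1 / (n : ℝ) ^ k ≤ F n A
        rw [div_le_iff₀ hn0]
        exact hA'.le
      have h3 : randomOracle.real (E n) ≤ randomOracle.real {A | 1 / (n : ℝ) ^ k ≤ F n A} :=
        measureReal_mono h2
      have h4 : randomOracle.real {A | 1 / (n : ℝ) ^ k ≤ F n A} ≤
          (n : ℝ) ^ k * (1 / ((n : ℝ) + 2) ^ (k + 2)) := by
        have h5 := h1.trans (hE n)
        rw [div_mul_eq_mul_div, one_mul, div_le_iff₀ hn0] at h5
        linarith
      refine h3.trans (h4.trans ?_)
      rw [mul_one_div, div_le_div_iff₀ (by positivity) (by positivity), one_mul, pow_add]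
      refine mul_le_mul_of_nonneg_right ?_ (by positivity)
      exact pow_le_pow_left₀ (by positivity) (by linarith) k
  have hBC := borel_cantelli E (C := 1) (fun n =>
    (Finset.sum_le_sum fun i _ => hPE i).trans (sum_inv_sq n))
  have hae : ∀ᵐ A ∂randomOracle, ¬ ∃ᶠ i in atTop, A ∈ E i := by
    rw [ae_iff]
    simp only [not_not]
    exact hBC
  filter_upwards [hae] with A hA
  rw [not_frequently] at hA
  filter_upwards [hA] with n hn
  have h1 : ¬ (1 < F n A * n ^ k) := hn
  rw [not_lt] at h1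
  have h2 : (∑ x : Fin n → Bool, if A ∈ B (List.ofFn x) then w (List.ofFn x) else 0) = F n A := by
    simp only [hF]
    refine Finset.sum_congr rfl fun x _ => ?_
    rw [Set.indicator_apply]
  rw [h2]
  exact h1

end Pool.Agent.H889R3.RQ
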