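import Pool.Agent.H889R3.RQ.TaskD
import Pool.Agent.H889R3.RQ.Weights

set_option autoImplicit false

namespace Pool.Agent.H889R3.RQ

open Pool.Agent.NPC Filter
open Pool.Agent.H620R2.Gauge (accProb circAct gateAct initSt Gate circ_bound countable_circ IsBQP)
open Pool.Agent.H516R2.EQP (queries)
open Pool.Agent.H628R3.RO (randomOracle)

open Classical in
/-- The theorem, with weights on the inputs and for sparse sets of inputs. -/
theorem taskE (h2 : St_C2) (h4 : St_C4) (k : ℕ) : ∃ T : ℕ → List Bool → DTree (List Bool),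
    (∀ i, ∃ K : ℝ, ∀ x, ((T i x).depth : ℝ) ≤ Real.exp (K * Real.log ((x.length : ℝ) + 2) ^ 2)) ∧
    (∀ w : List Bool → ℝ, (∀ x, 0 ≤ w x) → (∀ n, ∑ x : Fin n → Bool, w (List.ofFn x) ≤ 1) →
      ∀ᵐ A ∂randomOracle, ∀ L : Set (List Bool), IsBQP A L → ∃ i, ∀ᶠ n : ℕ in atTop,
        (∑ x : Fin n → Bool, if ((T i (List.ofFn x)).eval A = true ↔ List.ofFn x ∈ L) then 0
          else w (List.ofFn x)) * n ^ k ≤ 1) ∧
    (∀ S : Set (List Bool), (∀ n, 1 ≤ n → {x : Fin n → Bool | List.ofFn x ∈ S}.ncard ≤ n ^ k) →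
      ∀ᵐ A ∂randomOracle, ∀ L : Set (List Bool), IsBQP A L → ∃ i, ∀ᶠ n : ℕ in atTop,
        ∀ x : Fin n → Bool, List.ofFn x ∈ S →
          ((T i (List.ofFn x)).eval A = true ↔ List.ofFn x ∈ L)) := by
  obtain ⟨C, hC, h2⟩ := h2
  rcases Set.eq_empty_or_nonempty
    {F : List Bool → List Unit × List Gate | PolyTime (fun x => bits (F x))} with hemp | hne
  · refine ⟨fun _ _ => DTree.leaf false, fun i => ⟨0, fun x => ?_⟩, ?_, ?_⟩
    · simp [DTree.depth]
    · intro w _ _
      filter_upwards with A L hL
      obtain ⟨G, hG, _⟩ := hL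
      exact absurd (show G ∈ {F : List Bool → List Unit × List Gate |
        PolyTime (fun x => bits (F x))} from hG) (by rw [hemp]; exact Set.notMem_empty _)
    · intro S _
      filter_upwards with A L hL
      obtain ⟨G, hG, _⟩ := hL
      exact absurd (show G ∈ {F : List Bool → List Unit × List Gate |
        PolyTime (fun x => bits (F x))} from hG) (by rw [hemp]; exact Set.notMem_empty _)
  obtain ⟨F, hF⟩ := (countable_circ).exists_eq_range hne
  have hη : ∀ n : ℕ, 0 < 1 / ((n : ℝ) + 2) ^ (k + 1 + 2) ∧ 1 / ((n : ℝ) + 2) ^ (k + 1 + 2) ≤ 1 := by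
    intro n
    have h0 : (1 : ℝ) ≤ (n : ℝ) + 2 := by
      have : (0 : ℝ) ≤ n := Nat.cast_nonneg n
      linarith
    have h1 : (1 : ℝ) ≤ ((n : ℝ) + 2) ^ (k + 1 + 2) := one_le_pow₀ h0
    refine ⟨by positivity, ?_⟩
    rw [div_le_one (by positivity)]
    exact h1
  choose T hT1 hT2 hT3 using fun (i : ℕ) (x : List Bool) =>
    h2 (F i x) (1 / ((x.length : ℝ) + 2) ^ (k + 1 + 2)) (hη _).1 (hη _).2
  -- the general statement
  have main : ∀ w : List Bool → ℝ, (∀ x, 0 ≤ w x) →
      (∀ n, ∑ x : Fin n → Bool, w (List.ofFn x) ≤ 1) →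
      ∀ᵐ A ∂randomOracle, ∀ L : Set (List Bool), IsBQP A L → ∃ i, ∀ᶠ n : ℕ in atTop,
        (∑ x : Fin n → Bool, if ((T i (List.ofFn x)).eval A = true ↔ List.ofFn x ∈ L) then 0
          else w (List.ofFn x)) * n ^ (k + 1) ≤ 1 := by
    intro w hw0 hw
    have hae : ∀ᵐ A ∂randomOracle, ∀ i, ∀ᶠ n : ℕ in atTop,
        (∑ x : Fin n → Bool, if A ∈ Wrong (F i (List.ofFn x)) (T i (List.ofFn x)) then
          w (List.ofFn x) else 0) * n ^ (k + 1) ≤ 1 := by
      rw [MeasureTheory.ae_all_iff]
      intro i
      exact weights (k + 1) w hw0 hw (fun x => Wrong (F i x) (T i x)) (hT2 i) (hT3 i)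
    filter_upwards [hae] with A hA L hL
    obtain ⟨G, hG, hGL⟩ := hL
    have hGm : G ∈ {F : List Bool → List Unit × List Gate | PolyTime (fun x => bits (F x))} := hG
    rw [hF] at hGm
    obtain ⟨i, rfl⟩ := hGm
    refine ⟨i, ?_⟩
    filter_upwards [hA i] with n hn
    refine le_trans ?_ hn
    refine mul_le_mul_of_nonneg_right ?_ (by positivity)
    refine Finset.sum_le_sum fun x _ => ?_
    by_cases hx : ((T i (List.ofFn x)).eval A = true ↔ List.ofFn x ∈ L)
    · rw [if_pos hx]
      split_ifs
      · exact hw0 _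
      · exact le_refl _
    · rw [if_neg hx]
      have hW : A ∈ Wrong (F i (List.ofFn x)) (T i (List.ofFn x)) := by
        unfold Wrong
        by_cases hxL : List.ofFn x ∈ L
        · left
          refine ⟨(hGL _).1 hxL, ?_⟩
          by_contra hcon
          exact hx ⟨fun _ => hxL, fun _ => by simpa using hcon⟩
        · right
          refine ⟨(hGL _).2 hxL, ?_⟩
          by_contra hcon
          exact hx ⟨fun h => absurd h hcon, fun h => absurd h hxL⟩
      rw [if_pos hW]
  refine ⟨T, ?_, ?_, ?_⟩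
  · intro i
    have hi : PolyTime (fun x => bits (F i x)) := by
      have : F i ∈ {F : List Bool → List Unit × List Gate | PolyTime (fun x => bits (F x))} := by
        rw [hF]; exact ⟨i, rfl⟩
      exact this
    obtain ⟨b, hb⟩ := circ_bound hi
    obtain ⟨K, hK⟩ := h4 b (k + 1) C hC
    refine ⟨K, fun x => ?_⟩
    exact (hT1 i x).trans (hK x.length (queries (F i x)) ((queries_le _).trans (hb x).1))
  · intro w hw0 hw
    filter_upwards [main w hw0 hw] with A hA L hL
    obtain ⟨i, hi⟩ := hA L hL
    refine ⟨i, ?_⟩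
    filter_upwards [hi, eventually_ge_atTop 1] with n hn hn1
    refine le_trans ?_ hn
    refine mul_le_mul_of_nonneg_left ?_ ?_
    · exact pow_le_pow_right₀ (by exact_mod_cast hn1) (Nat.le_succ k)
    · refine Finset.sum_nonneg fun x _ => ?_
      split_ifs
      · exact le_refl _
      · exact hw0 _
  · intro S hS
    have hm := main (fun x => if x ∈ S then 1 / (x.length : ℝ) ^ k else 0)
      (fun x => by split_ifs <;> positivity) (fun n => by
        have h1 : ∑ x : Fin n → Bool, (if List.ofFn x ∈ S then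
            1 / ((List.ofFn x).length : ℝ) ^ k else 0) =
            ({x : Fin n → Bool | List.ofFn x ∈ S}.ncard : ℝ) * (1 / (n : ℝ) ^ k) := by
          rw [← Finset.sum_filter]
          simp only [List.length_ofFn]
          rw [Finset.sum_const, nsmul_eq_mul]
          congr 2
          rw [Set.ncard_eq_toFinset_card']
          congr 1
          ext x
          simp
        rw [h1]
        by_cases hn : (n : ℝ) ^ k = 0
        · rw [hn]; simp
        · have hn0 : 0 < (n : ℝ) ^ k := lt_of_le_of_ne (by positivity) (Ne.symm hn)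
          rw [mul_one_div, div_le_one hn0]
          rcases Nat.eq_zero_or_pos n with rfl | hpos
          · have hk0 : (0 : ℝ) ^ k = 1 := by
              rcases Nat.eq_zero_or_pos k with rfl | hk
              · simp
              · exact absurd (by simp [hk.ne']) hn
            have hc : {x : Fin 0 → Bool | List.ofFn x ∈ S}.ncard ≤ 1 :=
              (Set.ncard_le_ncard (Set.subset_univ _) (Set.toFinite _)).trans
                (by rw [Set.ncard_univ]; simp)
            push_cast
            rw [hk0]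
            exact_mod_cast hc
          · exact_mod_cast hS n hpos)
    filter_upwards [hm] with A hA L hL
    obtain ⟨i, hi⟩ := hA L hL
    refine ⟨i, ?_⟩
    filter_upwards [hi, eventually_ge_atTop 2] with n hn hn2 x hx
    by_contra hcon
    have hn2' : (2 : ℝ) ≤ n := by exact_mod_cast hn2
    have hn0 : (0 : ℝ) < n := by linarith
    have h1 : 1 / (n : ℝ) ^ k ≤ ∑ x : Fin n → Bool,
        (if ((T i (List.ofFn x)).eval A = true ↔ List.ofFn x ∈ L) then (0 : ℝ)
          else if List.ofFn x ∈ S then 1 / ((List.ofFn x).length : ℝ) ^ k else 0) := by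
      have h2 := Finset.single_le_sum (f := fun x : Fin n → Bool =>
        (if ((T i (List.ofFn x)).eval A = true ↔ List.ofFn x ∈ L) then (0 : ℝ)
          else if List.ofFn x ∈ S then 1 / ((List.ofFn x).length : ℝ) ^ k else 0))
        (fun y _ => by
          split_ifs <;> positivity) (Finset.mem_univ x)
      simp only [if_neg hcon, if_pos hx, List.length_ofFn] at h2
      simpa only [List.length_ofFn] using h2
    have h3 : 1 / (n : ℝ) ^ k * (n : ℝ) ^ (k + 1) ≤ 1 :=
      (mul_le_mul_of_nonneg_right h1 (by positivity)).trans hn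
    rw [pow_succ, ← mul_assoc, one_div, inv_mul_cancel₀ (by positivity), one_mul] at h3
    linarith

end Pool.Agent.H889R3.RQ
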