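import Pool.Agent.H889R3.RQ.TaskC2
import Pool.Agent.H889R3.RQ.TaskE
import Pool.Agent.H192R3.RQ.A1
import Pool.Agent.H023R3.RQ.A2
import Pool.Agent.H124R3.RQ_A4
import Pool.Agent.H116R3.RQ.B3
import Pool.Agent.H54.RQ.C1
import Pool.Agent.H169R3.RQ.A3
import Pool.Agent.H444R3.RQ.B1
import Pool.Agent.H710R3.RQB2
import Pool.Agent.H889R3.RQ.C4

set_option autoImplicit false

namespace Pool.Agent.H889R3.RQ

open Filter Pool.Agent.H620R2.Gauge Pool.Agent.H628R3.RO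

open Classical in
/-- the final theorem -/
theorem final (k : ℕ) : ∃ T : ℕ → List Bool → DTree (List Bool),
    (∀ i, ∃ K : ℝ, ∀ x, ((T i x).depth : ℝ) ≤ Real.exp (K * Real.log ((x.length : ℝ) + 2) ^ 2)) ∧
    (∀ w : List Bool → ℝ, (∀ x, 0 ≤ w x) → (∀ n, ∑ x : Fin n → Bool, w (List.ofFn x) ≤ 1) →
      ∀ᵐ A ∂randomOracle, ∀ L : Set (List Bool), Pool.Agent.H620R2.Gauge.IsBQP A L →
        ∃ i, ∀ᶠ n : ℕ in atTop,
          (∑ x : Fin n → Bool, if ((T i (List.ofFn x)).eval A = true ↔ List.ofFn x ∈ L) then 0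
            else w (List.ofFn x)) * n ^ k ≤ 1) ∧
    (∀ S : Set (List Bool), (∀ n, 1 ≤ n → {x : Fin n → Bool | List.ofFn x ∈ S}.ncard ≤ n ^ k) →
      ∀ᵐ A ∂randomOracle, ∀ L : Set (List Bool), Pool.Agent.H620R2.Gauge.IsBQP A L →
        ∃ i, ∀ᶠ n : ℕ in atTop, ∀ x : Fin n → Bool, List.ofFn x ∈ S →
          ((T i (List.ofFn x)).eval A = true ↔ List.ofFn x ∈ L)) :=
  taskE (taskC2 (Pool.Agent.H124R3.RQ.a4 Pool.Agent.H023R3.RQ.a2 (Pool.Agent.H169R3.RQ.a3 a1)) Pool.Agent.H444R3.RQ.b1 (Pool.Agent.H710R3.RQB2.b2 Pool.Agent.H444R3.RQ.b1)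
    Pool.Agent.H116R3.RQ.b3 Pool.Agent.H54.RQ.c1) taskC4 k

end Pool.Agent.H889R3.RQ
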