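import Pool.Agent.H889R3.RQ.Defs
import Pool.Agent.H516R2.EQP.Defs
import Pool.Agent.H572R4.QB.Main2

/-!
# Random oracles and quantum query algorithms: statements of the tasks
-/

set_option autoImplicit false

namespace Pool.Agent.H889R3.RQ

open Finset Pool.Agent.H572R2 Pool.Agent.H572R4.QA
open Pool.Agent.H620R2.Gauge (accProb circAct gateAct initSt Gate)
open Pool.Agent.H516R2.EQP (queries)
open Pool.Agent.H628R3.RO (randomOracle)

/-- the influence of the coordinate `i` -/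
noncomputable def inf2 {N : ℕ} (f : (Fin N → Bool) → ℝ) (i : Fin N) : ℝ :=
  EE (fun x => ((f x - f (flp i x)) / 2) ^ 2)

/-- the total influence -/
noncomputable def tot {N : ℕ} (f : (Fin N → Bool) → ℝ) : ℝ := ∑ i, inf2 f i

/-- the error indicator -/
noncomputable def bad {N : ℕ} (f : (Fin N → Bool) → ℝ) (T : DTree (Fin N)) (x : Fin N → Bool) : ℝ :=
  if (2 / 3 ≤ f x ∧ T.eval x = false) ∨ (f x ≤ 1 / 3 ∧ T.eval x = true) then 1 else 0

open Classical in
/-- the simulation: ask an influential variable as long as there is one, at most `m` questions -/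
noncomputable def sim {N : ℕ} (τ : ℝ) : ℕ → ((Fin N → Bool) → ℝ) → DTree (Fin N)
  | 0, f => DTree.leaf (decide (1 / 2 ≤ EE f))
  | m + 1, f =>
    if h : ∃ j, τ ≤ inf2 f j then
      DTree.ask h.choose (sim τ m (rs h.choose false f)) (sim τ m (rs h.choose true f))
    else DTree.leaf (decide (1 / 2 ≤ EE f))

/-- spectrum on the levels up to `k` -/
noncomputable def Pk (N k : ℕ) : Submodule ℝ ((Fin N → Bool) → ℝ) :=
  Submodule.span ℝ {g | ∃ S : Finset (Fin N), S.card ≤ k ∧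
    g = fun x => ∏ i ∈ S, (-1 : ℝ) ^ (x i).toNat}

/-! ### A: decision trees for functions on the cube -/

/-- A1: restricting a coordinate removes its influence from the total influence on the average. -/
def St_A1 : Prop := ∀ (N : ℕ) (f : (Fin N → Bool) → ℝ) (j : Fin N),
  (tot (rs j false f) + tot (rs j true f)) / 2 = tot f - inf2 f j

/-- A2: the total influence of a bounded function is at most its degree. -/
def St_A2 : Prop := ∀ (N d : ℕ) (f : (Fin N → Bool) → ℝ), (∀ x, |f x| ≤ 1) → DegLe d f →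
  tot f ≤ d

/-- A3: the error of the simulation. (For a family `F` of functions closed under restrictions, such
that functions of `F` without influential variables have variance at most `v`.) -/
def St_A3 : Prop := ∀ (N : ℕ) (F : Set ((Fin N → Bool) → ℝ)) (τ v : ℝ), 0 < τ → 0 ≤ v →
  (∀ f ∈ F, ∀ (j : Fin N) (b : Bool), rs j b f ∈ F) →
  (∀ f ∈ F, (∀ j, inf2 f j < τ) → var f ≤ v) →
  ∀ (m : ℕ), ∀ f ∈ F, (sim τ m f).depth ≤ m ∧
    m * τ * (EE (bad f (sim τ m f)) - 36 * v) ≤ tot f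

/-- A4: simulation of bounded polynomials by decision trees. -/
def St_A4 : Prop := ∃ C : ℝ, 0 < C ∧ ∀ (N d : ℕ) (f : (Fin N → Bool) → ℝ) (η : ℝ), 1 ≤ d →
  (∀ x, 0 ≤ f x) → (∀ x, f x ≤ 1) → DegLe d f → 0 < η → η ≤ 1 →
  ∃ T : DTree (Fin N), (T.depth : ℝ) ≤ (4 * d / η) ^ (C * Real.log (2 * d)) ∧ EE (bad f T) ≤ η

/-! ### B: the acceptance probability is a polynomial -/

/-- B1: products, characters, coordinates. -/
def St_B1 : Prop := ∀ N : ℕ,
  (∀ (k l : ℕ) (f g : (Fin N → Bool) → ℝ), f ∈ Pk N k → g ∈ Pk N l →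
    (fun x => f x * g x) ∈ Pk N (k + l)) ∧
  (∀ k l : ℕ, k ≤ l → Pk N k ≤ Pk N l) ∧
  (∀ c : ℝ, (fun _ => c) ∈ Pk N 0) ∧
  (∀ i : Fin N, (fun x => if x i then (1 : ℝ) else 0) ∈ Pk N 1) ∧
  (∀ (k : ℕ) (f : (Fin N → Bool) → ℝ), f ∈ Pk N k → DegLe k f)

/-- B2: the acceptance probability of a quantum circuit with `q` oracle gates is a polynomial of
degree at most `2 q` in the bits of the oracle. -/
def St_B2 : Prop := ∀ (N : ℕ) (O : (Fin N → Bool) → (List Bool → Bool)),
  (∀ z, (∃ b, ∀ y, O y z = b) ∨ ∃ i, ∀ y, O y z = y i) →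
  ∀ c : List Unit × List Gate, (fun y => accProb (O y) c) ∈ Pk N (2 * queries c)

/-- B3: it is a probability. -/
def St_B3 : Prop := ∀ (A : List Bool → Bool) (c : List Unit × List Gate),
  0 ≤ accProb A c ∧ accProb A c ≤ 1

/-! ### C: random oracles -/

/-- C1: the restriction of a random oracle to `N` strings is uniformly distributed. -/
def St_C1 : Prop := ∀ (N : ℕ) (e : Fin N → List Bool), Function.Injective e →
  ∀ P : (Fin N → Bool) → Prop, ∀ _ : DecidablePred P,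
    MeasurableSet {A : List Bool → Bool | P (fun i => A (e i))} ∧
    randomOracle.real {A : List Bool → Bool | P (fun i => A (e i))} =
      EE (fun y => if P y then (1 : ℝ) else 0)

/-- The event that the tree `T` is wrong about the circuit `c`. -/
def Wrong (c : List Unit × List Gate) (T : DTree (List Bool)) : Set (List Bool → Bool) :=
  {A | (2 / 3 ≤ accProb A c ∧ T.eval A = false) ∨ (accProb A c ≤ 1 / 3 ∧ T.eval A = true)}

/-- C2: simulation of a quantum circuit relative to a random oracle. -/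
def St_C2 : Prop := ∃ C : ℝ, 0 < C ∧ ∀ (c : List Unit × List Gate) (η : ℝ), 0 < η → η ≤ 1 →
  ∃ T : DTree (List Bool),
    (T.depth : ℝ) ≤ (4 * (2 * queries c + 1) / η) ^ (C * Real.log (2 * (2 * queries c + 1))) ∧
    MeasurableSet (Wrong c T) ∧ randomOracle.real (Wrong c T) ≤ η

/-- C3: Borel-Cantelli. -/
def St_C3 : Prop := ∀ (k : ℕ) (B : List Bool → Set (List Bool → Bool)),
  (∀ x, MeasurableSet (B x)) →
  (∀ x, randomOracle.real (B x) ≤ 1 / ((x.length : ℝ) + 2) ^ (k + 2)) →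
  ∀ᵐ A ∂randomOracle, ∀ᶠ n : ℕ in Filter.atTop,
    (({x : Fin n → Bool | A ∈ B (List.ofFn x)}.ncard : ℕ) : ℝ) * n ^ k ≤ 2 ^ n

/-- C4: the depth is quasi-polynomial. -/
def St_C4 : Prop := ∀ (b : Polynomial ℕ) (k : ℕ) (C : ℝ), 0 < C → ∃ K : ℝ, ∀ n q : ℕ,
  q ≤ b.eval n →
  (4 * (2 * (q : ℝ) + 1) / (1 / ((n : ℝ) + 2) ^ (k + 2))) ^ (C * Real.log (2 * (2 * (q : ℝ) + 1))) ≤
    Real.exp (K * Real.log ((n : ℝ) + 2) ^ 2)

/-- D: the theorem. -/
def St_D : Prop := ∀ k : ℕ, ∃ T : ℕ → List Bool → DTree (List Bool),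
  (∀ i, ∃ K : ℝ, ∀ x, ((T i x).depth : ℝ) ≤ Real.exp (K * Real.log ((x.length : ℝ) + 2) ^ 2)) ∧
  ∀ᵐ A ∂randomOracle, ∀ L : Set (List Bool), Pool.Agent.H620R2.Gauge.IsBQP A L →
    ∃ i, ∀ᶠ n : ℕ in Filter.atTop,
      (({x : Fin n → Bool | ¬ ((T i (List.ofFn x)).eval A = true ↔ List.ofFn x ∈ L)}.ncard : ℕ) : ℝ)
        * n ^ k ≤ 2 ^ n

end Pool.Agent.H889R3.RQ
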