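import Pool.Agent.H889R3.RQ.Stmts
import Pool.Agent.H620R2.GaugeQ.Q8

set_option autoImplicit false

namespace Pool.Agent.H889R3.RQ

open Finset Pool.Agent.NPC Pool.Agent.H572R2 Pool.Agent.H572R4.QA
open Pool.Agent.H620R2.Gauge (accProb circAct gateAct initSt Gate accProb_local)
open Pool.Agent.H516R2.EQP (queries)
open Pool.Agent.H628R3.RO (randomOracle)

/-- rename the questions -/
def DTree.map {α β : Type} (g : α → β) : DTree α → DTree β
  | .leaf b => .leaf b
  | .ask q t₀ t₁ => .ask (g q) (t₀.map g) (t₁.map g)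

theorem DTree.eval_map {α β : Type} (g : α → β) (A : β → Bool) (T : DTree α) :
    (T.map g).eval A = T.eval (fun i => A (g i)) := by
  induction T with
  | leaf b => rfl
  | ask q t₀ t₁ h0 h1 => simp only [DTree.map, DTree.eval, h0, h1]

theorem DTree.depth_map {α β : Type} (g : α → β) (T : DTree α) :
    (T.map g).depth = T.depth := by
  induction T with
  | leaf b => rfl
  | ask q t₀ t₁ h0 h1 => simp only [DTree.map, DTree.depth, h0, h1]

theorem len_bound (l : List Gate) :
    ∃ b : ℕ, ∀ q k, Sum.inr (true, q, k) ∈ l → q.length ≤ b := by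
  induction l with
  | nil => exact ⟨0, by simp⟩
  | cons g l ih =>
    obtain ⟨b, hb⟩ := ih
    rcases g with i | ⟨u, q, k⟩
    · refine ⟨b, fun q' k' h => ?_⟩
      rcases List.mem_cons.1 h with h | h
      · cases h
      · exact hb q' k' h
    · refine ⟨max q.length b, fun q' k' h => ?_⟩
      rcases List.mem_cons.1 h with h | h
      · cases h
        exact le_max_left _ _
      · exact (hb q' k' h).trans (le_max_right _ _)

theorem taskC2 (hA4 : St_A4) (hB1 : St_B1) (hB2 : St_B2) (hB3 : St_B3) (hC1 : St_C1) : St_C2 := by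
  obtain ⟨C, hC, hA⟩ := hA4
  refine ⟨C, hC, fun c η hη hη1 => ?_⟩
  obtain ⟨b, hb⟩ := len_bound c.2
  set Z : Finset (List Bool) := (List.finite_length_le Bool b).toFinset with hZ
  have hmem : ∀ z : List Bool, z.length ≤ b → z ∈ Z := by
    intro z hz
    rw [hZ, Set.Finite.mem_toFinset]
    exact hz
  set N := Z.card with hN
  set e : Fin N → List Bool := fun i => (Z.equivFin.symm i).1 with he
  have hinj : Function.Injective e := by
    intro i j hij
    exact Z.equivFin.symm.injective (Subtype.ext hij)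
  set O : (Fin N → Bool) → (List Bool → Bool) := fun y z =>
    if h : z ∈ Z then y (Z.equivFin ⟨z, h⟩) else false with hO
  have hOprop : ∀ z, (∃ b, ∀ y, O y z = b) ∨ ∃ i, ∀ y, O y z = y i := by
    intro z
    by_cases h : z ∈ Z
    · exact Or.inr ⟨Z.equivFin ⟨z, h⟩, fun y => by simp only [hO, dif_pos h]⟩
    · exact Or.inl ⟨false, fun y => by simp only [hO, dif_neg h]⟩
  set f : (Fin N → Bool) → ℝ := fun y => accProb (O y) c with hf
  have hloc : ∀ A : List Bool → Bool, accProb A c = f (fun i => A (e i)) := by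
    intro A
    rw [hf]
    refine accProb_local (N := 0) fun q k hq z hz => ?_
    have hzZ : z ∈ Z := hmem z (hz.trans_le (hb q k hq))
    simp only [hO, dif_pos hzZ, he, Equiv.symm_apply_apply]
  have hdeg : DegLe (2 * queries c + 1) f := by
    obtain ⟨_, hmono, _, _, hd⟩ := hB1 N
    exact hd _ _ (hmono _ _ (Nat.le_succ _) (hB2 N O hOprop c))
  obtain ⟨T, hT1, hT2⟩ := hA N (2 * queries c + 1) f η (by omega)
    (fun y => (hB3 (O y) c).1) (fun y => (hB3 (O y) c).2) hdeg hη hη1
  have hW : Wrong c (T.map e) = {A : List Bool → Bool |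
      (fun y : Fin N → Bool => (2 / 3 ≤ f y ∧ T.eval y = false) ∨ (f y ≤ 1 / 3 ∧ T.eval y = true))
        (fun i => A (e i))} := by
    ext A
    simp only [Wrong, Set.mem_ofPred_eq, DTree.eval_map, hloc A]
  classical
  obtain ⟨hm, hp⟩ := hC1 N e hinj
    (fun y : Fin N → Bool => (2 / 3 ≤ f y ∧ T.eval y = false) ∨ (f y ≤ 1 / 3 ∧ T.eval y = true))
    (fun _ => Classical.propDecidable _)
  refine ⟨T.map e, ?_, ?_, ?_⟩
  · rw [DTree.depth_map]
    push_cast at hT1
    exact hT1
  · rw [hW]; exact hm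
  · rw [hW, hp]
    refine le_trans (le_of_eq ?_) hT2
    refine EE_congr fun y => ?_
    unfold bad
    split_ifs <;> rfl

end Pool.Agent.H889R3.RQ
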