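import Pool.Agent.H889R3.RQ.Stmts
import Pool.Agent.H620R2.GaugeQ.Q8

set_option autoImplicit false

namespace Pool.Agent.H889R3.RQ

open Pool.Agent.NPC
open Pool.Agent.H620R2.Gauge (accProb circAct gateAct initSt Gate circ_bound countable_circ IsBQP)
open Pool.Agent.H516R2.EQP (queries)
open Pool.Agent.H628R3.RO (randomOracle)

theorem queries_le (c : List Unit × List Gate) : queries c ≤ c.2.length :=
  List.countP_le_length

theorem taskD (h2 : St_C2) (h3 : St_C3) (h4 : St_C4) : St_D := by
  intro k
  obtain ⟨C, hC, h2⟩ := h2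
  -- enumerate the uniform circuit families
  have hne : {F : List Bool → List Unit × List Gate | PolyTime (fun x => bits (F x))}.Nonempty ∨
      {F : List Bool → List Unit × List Gate | PolyTime (fun x => bits (F x))} = ∅ := by
    rcases Set.eq_empty_or_nonempty
      {F : List Bool → List Unit × List Gate | PolyTime (fun x => bits (F x))} with h | h
    · exact Or.inr h
    · exact Or.inl h
  rcases hne with hne | hemp
  · obtain ⟨F, hF⟩ := (countable_circ).exists_eq_range hne
    have hη : ∀ n : ℕ, 0 < 1 / ((n : ℝ) + 2) ^ (k + 2) ∧ 1 / ((n : ℝ) + 2) ^ (k + 2) ≤ 1 := by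
      intro n
      have h0 : (1 : ℝ) ≤ (n : ℝ) + 2 := by
        have : (0 : ℝ) ≤ n := Nat.cast_nonneg n
        linarith
      have h1 : (1 : ℝ) ≤ ((n : ℝ) + 2) ^ (k + 2) := one_le_pow₀ h0
      refine ⟨by positivity, ?_⟩
      rw [div_le_one (by positivity)]
      exact h1
    choose T hT1 hT2 hT3 using fun (i : ℕ) (x : List Bool) =>
      h2 (F i x) (1 / ((x.length : ℝ) + 2) ^ (k + 2)) (hη _).1 (hη _).2
    refine ⟨T, ?_, ?_⟩
    · intro i
      have hi : PolyTime (fun x => bits (F i x)) := by
        have : F i ∈ {F : List Bool → List Unit × List Gate | PolyTime (fun x => bits (F x))} := by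
          rw [hF]; exact ⟨i, rfl⟩
        exact this
      obtain ⟨b, hb⟩ := circ_bound hi
      obtain ⟨K, hK⟩ := h4 b k C hC
      refine ⟨K, fun x => ?_⟩
      exact (hT1 i x).trans (hK x.length (queries (F i x)) ((queries_le _).trans (hb x).1))
    · have hae : ∀ᵐ A ∂randomOracle, ∀ i, ∀ᶠ n : ℕ in Filter.atTop,
          (({x : Fin n → Bool | A ∈ Wrong (F i (List.ofFn x)) (T i (List.ofFn x))}.ncard : ℕ) : ℝ)
            * n ^ k ≤ 2 ^ n := by
        rw [MeasureTheory.ae_all_iff]
        intro i
        exact h3 k (fun x => Wrong (F i x) (T i x)) (hT2 i) (hT3 i)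
      filter_upwards [hae] with A hA L hL
      obtain ⟨G, hG, hGL⟩ := hL
      have hGm : G ∈ {F : List Bool → List Unit × List Gate | PolyTime (fun x => bits (F x))} := hG
      rw [hF] at hGm
      obtain ⟨i, rfl⟩ := hGm
      refine ⟨i, ?_⟩
      filter_upwards [hA i] with n hn
      refine le_trans ?_ hn
      refine mul_le_mul_of_nonneg_right ?_ (by positivity)
      have hsub : {x : Fin n → Bool | ¬ ((T i (List.ofFn x)).eval A = true ↔ List.ofFn x ∈ L)} ⊆
          {x : Fin n → Bool | A ∈ Wrong (F i (List.ofFn x)) (T i (List.ofFn x))} := by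
        intro x hx
        simp only [Set.mem_setOf_eq] at hx ⊢
        unfold Wrong
        by_cases hxL : List.ofFn x ∈ L
        · left
          refine ⟨(hGL _).1 hxL, ?_⟩
          by_contra hcon
          exact hx ⟨fun _ => hxL, fun _ => by simpa using hcon⟩
        · right
          refine ⟨(hGL _).2 hxL, ?_⟩
          by_contra hcon
          exact hx ⟨fun h => absurd h hcon, fun h => absurd h hxL⟩
      exact_mod_cast Set.ncard_le_ncard hsub (Set.toFinite _)
  · refine ⟨fun _ _ => DTree.leaf false, fun i => ⟨0, fun x => ?_⟩, ?_⟩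
    · simp [DTree.depth]
    · filter_upwards with A L hL
      obtain ⟨G, hG, _⟩ := hL
      exact absurd (show G ∈ {F : List Bool → List Unit × List Gate |
        PolyTime (fun x => bits (F x))} from hG) (by rw [hemp]; exact Set.notMem_empty _)

end Pool.Agent.H889R3.RQ
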